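import Mathlib

/-!
# Size-free sums of squares: averaging over groups and closed diagrams
-/

set_option autoImplicit false

namespace Pool.Agent.Helper58.YM

open Finset

/-! ### Averaging -/

/-- The average of a function over a finite group acting on the left on `Y` and on the right
on `X`, against a sign character, gives nonnegative kernels. -/
theorem kern_nonneg {G Y X : Type} [Group G] [Fintype G] [Fintype Y] [Fintype X]
    (a : G → Y → Y) (ha1 : ∀ y, a 1 y = y) (ham : ∀ g h y, a (g * h) y = a g (a h y))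
    (b : G → X → X) (hb1 : ∀ x, b 1 x = x) (hbm : ∀ g h x, b (g * h) x = b h (b g x))
    (χ : G → ℝ) (hχ : ∀ g h, χ (g * h) = χ g * χ h) (hχ1 : ∀ g, χ g * χ g = 1)
    {n : ℕ} (v : Fin n → Y → ℝ) (f : Fin n → X → ℝ) (w : Fin n → ℝ) :
    0 ≤ ∑ α, ∑ β, w α * w β * ∑ g, χ g * (∑ y, v α (a g y) * v β y) *
      (∑ x, f α x * f β (b g x)) := by
  classical
  set F : Y → X → ℝ := fun y x => ∑ α, w α * v α y * f α x with hF
  set P : G → ℝ := fun k => ∑ y, ∑ x, F (a k y) x * F y (b k x) with hP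
  -- the permutations
  let ea : G → Y ≃ Y := fun g =>
    ⟨a g, a g⁻¹, fun y => by rw [← ham, inv_mul_cancel, ha1],
      fun y => by rw [← ham, mul_inv_cancel, ha1]⟩
  let eb : G → X ≃ X := fun g =>
    ⟨b g, b g⁻¹, fun x => by rw [← hbm, mul_inv_cancel, hb1],
      fun x => by rw [← hbm, inv_mul_cancel, hb1]⟩
  have key : ∀ g h : G, ∑ y, ∑ x, F (a g y) (b g⁻¹ x) * F (a h y) (b h⁻¹ x) =
      P (g * h⁻¹) := by
    intro g h
    rw [hP]
    simp only
    rw [← Equiv.sum_comp (ea h)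
      (fun y => ∑ x, F (a (g * h⁻¹) y) x * F y (b (g * h⁻¹) x))]
    refine Finset.sum_congr rfl fun y _ => ?_
    rw [← Equiv.sum_comp (eb g⁻¹)
      (fun x => F (a (g * h⁻¹) ((ea h) y)) x * F ((ea h) y) (b (g * h⁻¹) x))]
    refine Finset.sum_congr rfl fun x _ => ?_
    have e1 : a (g * h⁻¹) ((ea h) y) = a g y := by
      change a (g * h⁻¹) (a h y) = a g y
      rw [← ham, inv_mul_cancel_right]
    have e2 : b (g * h⁻¹) ((eb g⁻¹) x) = b h⁻¹ x := by
      change b (g * h⁻¹) (b g⁻¹ x) = b h⁻¹ x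
      rw [← hbm, inv_mul_cancel_left]
    rw [e1, e2]
    rfl
  have h0 : 0 ≤ ∑ y, ∑ x, (∑ g, χ g * F (a g y) (b g⁻¹ x)) ^ 2 :=
    Finset.sum_nonneg fun y _ => Finset.sum_nonneg fun x _ => sq_nonneg _
  have h1 : ∑ y, ∑ x, (∑ g, χ g * F (a g y) (b g⁻¹ x)) ^ 2 =
      ∑ h, ∑ g, χ g * χ h * P (g * h⁻¹) := by
    have e1 : ∀ y x, (∑ g, χ g * F (a g y) (b g⁻¹ x)) ^ 2 =
        ∑ h, ∑ g, χ g * χ h * (F (a g y) (b g⁻¹ x) * F (a h y) (b h⁻¹ x)) := by
      intro y x
      rw [sq, Finset.sum_mul_sum, Finset.sum_comm]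
      refine Finset.sum_congr rfl fun h _ => Finset.sum_congr rfl fun g _ => ?_
      ring
    simp only [e1]
    have e2 : ∀ y, ∑ x, ∑ h, ∑ g, χ g * χ h * (F (a g y) (b g⁻¹ x) * F (a h y) (b h⁻¹ x)) =
        ∑ h, ∑ g, χ g * χ h * ∑ x, F (a g y) (b g⁻¹ x) * F (a h y) (b h⁻¹ x) := by
      intro y
      rw [Finset.sum_comm]
      refine Finset.sum_congr rfl fun h _ => ?_
      rw [Finset.sum_comm]
      refine Finset.sum_congr rfl fun g _ => ?_
      rw [Finset.mul_sum]
    simp only [e2]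
    rw [Finset.sum_comm]
    refine Finset.sum_congr rfl fun h _ => ?_
    rw [Finset.sum_comm]
    refine Finset.sum_congr rfl fun g _ => ?_
    rw [← Finset.mul_sum, key g h]
  have h2 : ∑ h, ∑ g, χ g * χ h * P (g * h⁻¹) = (Fintype.card G : ℝ) * ∑ k, χ k * P k := by
    have e1 : ∀ h : G, ∑ g, χ g * χ h * P (g * h⁻¹) = ∑ k, χ k * P k := by
      intro h
      rw [← Equiv.sum_comp (Equiv.mulRight h) (fun g => χ g * χ h * P (g * h⁻¹))]
      refine Finset.sum_congr rfl fun k _ => ?_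
      rw [Equiv.coe_mulRight, mul_inv_cancel_right, hχ, mul_assoc (χ k), hχ1, mul_one]
    simp only [e1]
    rw [Finset.sum_const, Finset.card_univ, nsmul_eq_mul]
  have h3 : 0 ≤ ∑ k, χ k * P k := by
    rw [h1, h2] at h0
    have hc : (0 : ℝ) < Fintype.card G := by
      have : 0 < Fintype.card G := Fintype.card_pos
      exact_mod_cast this
    exact nonneg_of_mul_nonneg_right h0 hc
  have h4 : ∑ α, ∑ β, w α * w β * ∑ g, χ g * (∑ y, v α (a g y) * v β y) *
      (∑ x, f α x * f β (b g x)) = ∑ k, χ k * P k := by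
    have e1 : ∀ k, P k = ∑ α, ∑ β, w α * w β * ((∑ y, v α (a k y) * v β y) *
        (∑ x, f α x * f β (b k x))) := by
      intro k
      rw [hP]
      simp only [hF]
      have e2 : ∀ y x, (∑ α, w α * v α (a k y) * f α x) * (∑ α, w α * v α y * f α (b k x)) =
          ∑ α, ∑ β, w α * w β * ((v α (a k y) * v β y) * (f α x * f β (b k x))) := by
        intro y x
        rw [Finset.sum_mul_sum]
        refine Finset.sum_congr rfl fun α _ => Finset.sum_congr rfl fun β _ => ?_
        ring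
      simp only [e2]
      have e3 : ∀ y, ∑ x, ∑ α, ∑ β, w α * w β * ((v α (a k y) * v β y) * (f α x * f β (b k x)))
          = ∑ α, ∑ β, w α * w β * ((v α (a k y) * v β y) * ∑ x, f α x * f β (b k x)) := by
        intro y
        rw [Finset.sum_comm]
        refine Finset.sum_congr rfl fun α _ => ?_
        rw [Finset.sum_comm]
        refine Finset.sum_congr rfl fun β _ => ?_
        rw [← Finset.mul_sum, ← Finset.mul_sum]
      simp only [e3]
      rw [Finset.sum_comm]
      refine Finset.sum_congr rfl fun α _ => ?_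
      rw [Finset.sum_comm]
      refine Finset.sum_congr rfl fun β _ => ?_
      rw [← Finset.mul_sum, ← Finset.sum_mul]
    simp only [e1]
    have e5 : ∀ k, χ k * ∑ α, ∑ β, w α * w β * ((∑ y, v α (a k y) * v β y) *
        (∑ x, f α x * f β (b k x))) = ∑ α, ∑ β, w α * w β * (χ k *
        (∑ y, v α (a k y) * v β y) * (∑ x, f α x * f β (b k x))) := by
      intro k
      rw [Finset.mul_sum]
      refine Finset.sum_congr rfl fun α _ => ?_
      rw [Finset.mul_sum]
      refine Finset.sum_congr rfl fun β _ => ?_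
      ring
    simp only [e5]
    symm
    rw [Finset.sum_comm]
    refine Finset.sum_congr rfl fun α _ => ?_
    rw [Finset.sum_comm]
    refine Finset.sum_congr rfl fun β _ => ?_
    rw [Finset.mul_sum]
  rw [h4]
  exact h3

/-- From a positive kernel and a sum of squares of coefficients. -/
theorem psd_comb {n : ℕ} (K : Fin n → Fin n → ℝ)
    (hK : ∀ w : Fin n → ℝ, 0 ≤ ∑ α, ∑ β, w α * w β * K α β)
    (C : Fin n → Fin n → ℤ) (m : ℕ) (D : ℤ) (hD : 0 < D) (e : Fin m → ℤ)
    (he : ∀ s, 0 ≤ e s) (l : Fin m → Fin n → ℤ)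
    (hC : ∀ α β, D * C α β = ∑ s, e s * (l s α * l s β)) :
    0 ≤ ∑ α, ∑ β, (C α β : ℝ) * K α β := by
  have h1 : (D : ℝ) * ∑ α, ∑ β, (C α β : ℝ) * K α β =
      ∑ s, (e s : ℝ) * ∑ α, ∑ β, (l s α : ℝ) * (l s β : ℝ) * K α β := by
    have e1 : ∀ α β, (D : ℝ) * ((C α β : ℝ) * K α β) =
        ∑ s, (e s : ℝ) * ((l s α : ℝ) * (l s β : ℝ) * K α β) := by
      intro α β
      have h := hC α β
      have h' : (D : ℝ) * (C α β : ℝ) = ∑ s, (e s : ℝ) * ((l s α : ℝ) * (l s β : ℝ)) := by
        have := congrArg (fun z : ℤ => (z : ℝ)) h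
        push_cast at this
        exact this
      rw [← mul_assoc, h', Finset.sum_mul]
      refine Finset.sum_congr rfl fun s _ => ?_
      ring
    rw [Finset.mul_sum]
    simp only [Finset.mul_sum]
    simp only [e1]
    have e2 : ∀ α, ∑ β, ∑ s, (e s : ℝ) * ((l s α : ℝ) * (l s β : ℝ) * K α β) =
        ∑ s, ∑ β, (e s : ℝ) * ((l s α : ℝ) * (l s β : ℝ) * K α β) := fun α =>
      Finset.sum_comm
    simp only [e2]
    rw [Finset.sum_comm]
  have hD' : (0 : ℝ) < D := by exact_mod_cast hD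
  have h2 : 0 ≤ (D : ℝ) * ∑ α, ∑ β, (C α β : ℝ) * K α β := by
    rw [h1]
    exact Finset.sum_nonneg fun s _ => mul_nonneg (by exact_mod_cast he s) (hK _)
  exact nonneg_of_mul_nonneg_right h2 hD'

/-! ### Closed diagrams -/

/-- A node: the label of its upper index and of its two lower indices. -/
abbrev Nd : Type := ℕ × ℕ × ℕ

/-- Extension of a finite list of indices. -/
def ex {α : Type} {n : ℕ} [NeZero n] (v : Fin n → α) (k : ℕ) : α := v (Fin.ofNat n k)

section
variable {ι κ : Type}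

/-- The monomial of a list of nodes. -/
def pm (A : ι → κ → κ → ℝ) (u : ℕ → ι) (v : ℕ → κ) (L : List Nd) : ℝ :=
  (L.map fun t => A (u t.1) (v t.2.1) (v t.2.2)).prod

/-- The monomial of a list of codes. -/
def pc (A : ι → κ → κ → ℝ) (u : ℕ → ι) (v : ℕ → κ) (R : List ℕ) : ℝ :=
  (R.map fun e => A (u (e / 64)) (v (e / 8 % 8)) (v (e % 8))).prod

/-- The value of a closed diagram. -/
def ev [Fintype ι] [Fintype κ] (A : ι → κ → κ → ℝ) (L : List Nd) : ℝ :=
  ∑ u : Fin 4 → ι, ∑ v : Fin 8 → κ, pm A (ex u) (ex v) L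

/-- The value of a closed diagram given by codes. -/
def evc [Fintype ι] [Fintype κ] (A : ι → κ → κ → ℝ) (R : List ℕ) : ℝ :=
  ∑ u : Fin 4 → ι, ∑ v : Fin 8 → κ, pc A (ex u) (ex v) R

end

/-- Digit `n` of `p` in base `b`. -/
def lk (b p n : ℕ) : ℕ := p / b ^ n % b

/-- The number with digits `0, .., n - 1` given by the inverse of `p`. -/
def iv (b p : ℕ) : ℕ → ℕ
  | 0 => 0
  | n + 1 => iv b p n + n * b ^ (lk b p n)

/-- `q` inverts `p` on the digits below `n`. -/
def okp (b p q : ℕ) : ℕ → Bool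
  | 0 => true
  | n + 1 => Nat.beq (lk b q (lk b p n)) n && okp b p q n

/-- Relabelling. -/
def rl (pu pv : ℕ) (t : Nd) : Nd := (lk 4 pu (t.1 % 4), lk 8 pv (t.2.1 % 8), lk 8 pv (t.2.2 % 8))

/-- Code of a node. -/
def en (t : Nd) : ℕ :=
  t.1 * 64 + bif Nat.ble t.2.1 t.2.2 then t.2.1 * 8 + t.2.2 else t.2.2 * 8 + t.2.1

/-- Insertion. -/
def ins (x : ℕ) : List ℕ → List ℕ
  | [] => [x]
  | y :: l => bif Nat.ble x y then x :: y :: l else y :: ins x l

/-- Insertion sort. -/
def isort : List ℕ → List ℕ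
  | [] => []
  | x :: l => ins x (isort l)

/-- Equality of lists of numbers. -/
def leq : List ℕ → List ℕ → Bool
  | [], [] => true
  | x :: l, y :: l' => Nat.beq x y && leq l l'
  | _, _ => false

/-- The checker. -/
def chk (L : List Nd) (pu pv : ℕ) (R : List ℕ) : Bool :=
  okp 4 pu (iv 4 pu 4) 4 && (okp 8 pv (iv 8 pv 8) 8 && leq (isort (L.map fun t => en (rl pu pv t))) R)

theorem ins_perm (x : ℕ) (l : List ℕ) : (ins x l).Perm (x :: l) := by
  induction l with
  | nil => exact List.Perm.refl _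
  | cons y l ih =>
    unfold ins
    cases Nat.ble x y with
    | true => exact List.Perm.refl _
    | false => exact (List.Perm.cons y ih).trans (List.Perm.swap x y l)

theorem isort_perm (l : List ℕ) : (isort l).Perm l := by
  induction l with
  | nil => exact List.Perm.refl _
  | cons x l ih => exact (ins_perm x _).trans (List.Perm.cons x ih)

theorem leq_eq : ∀ (l l' : List ℕ), leq l l' = true → l = l'
  | [], [], _ => rfl
  | x :: l, y :: l', h => by
    unfold leq at h
    rw [Bool.and_eq_true] at h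
    rw [Nat.eq_of_beq_eq_true h.1, leq_eq l l' h.2]
  | [], _ :: _, h => by simp [leq] at h
  | _ :: _, [], h => by simp [leq] at h

theorem lk_lt (b p n : ℕ) (hb : 0 < b) : lk b p n < b := Nat.mod_lt _ hb

theorem okp_spec (b p q : ℕ) : ∀ n, okp b p q n = true → ∀ k < n, lk b q (lk b p k) = k
  | 0, _, k, hk => absurd hk (Nat.not_lt_zero _)
  | n + 1, h, k, hk => by
    unfold okp at h
    rw [Bool.and_eq_true] at h
    rcases Nat.lt_succ_iff_lt_or_eq.1 hk with h1 | h1
    · exact okp_spec b p q n h.2 k h1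
    · rw [h1]
      exact Nat.eq_of_beq_eq_true h.1

/-- The permutation given by digits. -/
noncomputable def dperm (b p q : ℕ) [NeZero b] (h : okp b p q b = true) : Fin b ≃ Fin b :=
  Equiv.ofBijective (fun i : Fin b => (⟨lk b p i.val, lk_lt b p _ (Nat.pos_of_neZero b)⟩ : Fin b))
    (Finite.injective_iff_bijective.1 fun i j hij => by
      have h1 : lk b p i.val = lk b p j.val := congrArg Fin.val hij
      have h2 := okp_spec b p q b h i.val i.isLt
      have h3 := okp_spec b p q b h j.val j.isLt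
      rw [h1, h3] at h2
      exact Fin.ext h2.symm)

theorem ex_perm {α : Type} (b p q : ℕ) [NeZero b] (h : okp b p q b = true) (v : Fin b → α)
    (n : ℕ) : ex (fun i => v (dperm b p q h i)) n = ex v (lk b p (n % b)) := by
  unfold ex
  change v (dperm b p q h (Fin.ofNat b n)) = v (Fin.ofNat b (lk b p (n % b)))
  congr 1
  refine Fin.ext ?_
  change lk b p ((Fin.ofNat b n).val) = (Fin.ofNat b (lk b p (n % b))).val
  rw [Fin.val_ofNat, Fin.val_ofNat, Nat.mod_eq_of_lt (lk_lt b p _ (Nat.pos_of_neZero b))]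

section
variable {ι κ : Type}

theorem pm_rl (A : ι → κ → κ → ℝ) (pu qu pv qv : ℕ) (hu : okp 4 pu qu 4 = true)
    (hv : okp 8 pv qv 8 = true) (u : Fin 4 → ι) (v : Fin 8 → κ) (L : List Nd) :
    pm A (ex fun i => u (dperm 4 pu qu hu i)) (ex fun i => v (dperm 8 pv qv hv i)) L =
      pm A (ex u) (ex v) (L.map (rl pu pv)) := by
  unfold pm
  rw [List.map_map]
  congr 1
  refine List.map_congr_left fun t _ => ?_
  simp only [Function.comp_apply, rl, ex_perm]

theorem pm_en (A : ι → κ → κ → ℝ) (hA : ∀ a i j, A a i j = A a j i) (u : ℕ → ι) (v : ℕ → κ)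
    (L : List Nd) (hL : ∀ t ∈ L, t.2.1 < 8 ∧ t.2.2 < 8) :
    pm A u v L = pc A u v (L.map en) := by
  unfold pm pc
  rw [List.map_map]
  congr 1
  refine List.map_congr_left fun t ht => ?_
  obtain ⟨h1, h2⟩ := hL t ht
  obtain ⟨a, i, j⟩ := t
  simp only [Function.comp_apply, en] at *
  cases hb : Nat.ble i j with
  | true =>
    have e1 : (a * 64 + (i * 8 + j)) / 64 = a := by omega
    have e2 : (a * 64 + (i * 8 + j)) / 8 % 8 = i := by omega
    have e3 : (a * 64 + (i * 8 + j)) % 8 = j := by omega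
    simp only [cond_true, e1, e2, e3]
  | false =>
    have e1 : (a * 64 + (j * 8 + i)) / 64 = a := by omega
    have e2 : (a * 64 + (j * 8 + i)) / 8 % 8 = j := by omega
    have e3 : (a * 64 + (j * 8 + i)) % 8 = i := by omega
    simp only [cond_false, e1, e2, e3]
    exact hA _ _ _

theorem chk_sound [Fintype ι] [Fintype κ] (A : ι → κ → κ → ℝ)
    (hA : ∀ a i j, A a i j = A a j i) (L : List Nd) (pu pv : ℕ) (R : List ℕ)
    (h : chk L pu pv R = true) : ev A L = evc A R := by
  unfold chk at h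
  rw [Bool.and_eq_true, Bool.and_eq_true] at h
  obtain ⟨hu, hv, hR⟩ := h
  have hR' := leq_eq _ _ hR
  unfold ev evc
  rw [← Equiv.sum_comp (Equiv.arrowCongr (dperm 4 pu _ hu).symm (Equiv.refl ι))]
  refine Finset.sum_congr rfl fun u _ => ?_
  rw [← Equiv.sum_comp (Equiv.arrowCongr (dperm 8 pv _ hv).symm (Equiv.refl κ))]
  refine Finset.sum_congr rfl fun v _ => ?_
  have e1 : pm A (ex ((Equiv.arrowCongr (dperm 4 pu _ hu).symm (Equiv.refl ι)) u))
      (ex ((Equiv.arrowCongr (dperm 8 pv _ hv).symm (Equiv.refl κ)) v)) L =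
      pm A (ex u) (ex v) (L.map (rl pu pv)) := by
    rw [← pm_rl A pu _ pv _ hu hv u v L]
    rfl
  rw [e1, pm_en A hA (ex u) (ex v) (L.map (rl pu pv)) (by
    intro t ht
    obtain ⟨s, _, rfl⟩ := List.mem_map.1 ht
    exact ⟨lk_lt 8 _ _ (by norm_num), lk_lt 8 _ _ (by norm_num)⟩)]
  unfold pc
  have h6 : (L.map (rl pu pv)).map en = L.map (fun t => en (rl pu pv t)) := by
    rw [List.map_map]
    rfl
  rw [h6, ← hR']
  have h5 : (isort (L.map fun t => en (rl pu pv t))).Perm (L.map fun t => en (rl pu pv t)) :=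
    isort_perm _
  exact ((h5.map (fun e => A (ex u (e / 64)) (ex v (e / 8 % 8)) (ex v (e % 8)))).prod_eq).symm

end

/-! ### Open diagrams -/

section
variable {ι κ : Type} [Fintype ι] [Fintype κ]

/-- Value of an open diagram: `m` free and `k` summed lower labels, `l` free and `j` summed upper
labels. -/
def opn (m k l j : ℕ) [NeZero (m + k)] [NeZero (l + j)] (A : ι → κ → κ → ℝ) (L : List Nd)
    (p : (Fin m → κ) × (Fin l → ι)) : ℝ :=
  ∑ w : Fin j → ι, ∑ z : Fin k → κ, pm A (ex (Fin.append p.2 w)) (ex (Fin.append p.1 z)) L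

/-- Shift of the summed labels. -/
def shn (m k n : ℕ) : ℕ := bif Nat.ble m n then n + k else n

/-- Shift of the summed labels of a node. -/
def sh (m k l j : ℕ) (t : Nd) : Nd := (shn l j t.1, shn m k t.2.1, shn m k t.2.2)

theorem ex_left {α : Type} (m k r : ℕ) [NeZero (m + k)] [NeZero (m + k + r)]
    (v : Fin (m + k) → α) (z : Fin r → α) (n : ℕ) (hn : n < m + k) :
    ex (Fin.append v z) n = ex v n := by
  unfold ex
  have h1 : (Fin.ofNat (m + k + r) n) = Fin.castAdd r (⟨n, hn⟩ : Fin (m + k)) := by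
    refine Fin.ext ?_
    rw [Fin.val_ofNat, Nat.mod_eq_of_lt (by omega)]
    rfl
  have h2 : (Fin.ofNat (m + k) n) = (⟨n, hn⟩ : Fin (m + k)) := by
    refine Fin.ext ?_
    rw [Fin.val_ofNat, Nat.mod_eq_of_lt hn]
  rw [h1, h2, Fin.append_left]

theorem ex_right {α : Type} (m k : ℕ) [NeZero (m + k)] [NeZero (m + k + k)]
    (x : Fin m → α) (z z' : Fin k → α) (n : ℕ) (hn : n < m + k) :
    ex (Fin.append (Fin.append x z) z') (shn m k n) = ex (Fin.append x z') n := by
  unfold ex shn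
  cases hb : Nat.ble m n with
  | true =>
    have hmn : m ≤ n := Nat.le_of_ble_eq_true hb
    have h1 : (Fin.ofNat (m + k + k) (n + k)) =
        Fin.natAdd (m + k) (⟨n - m, by omega⟩ : Fin k) := by
      refine Fin.ext ?_
      rw [Fin.val_ofNat, Nat.mod_eq_of_lt (by omega)]
      change n + k = m + k + (n - m)
      omega
    have h2 : (Fin.ofNat (m + k) n) = Fin.natAdd m (⟨n - m, by omega⟩ : Fin k) := by
      refine Fin.ext ?_
      rw [Fin.val_ofNat, Nat.mod_eq_of_lt hn]
      change n = m + (n - m)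
      omega
    rw [cond_true, h1, h2, Fin.append_right, Fin.append_right]
  | false =>
    have hmn : n < m := by
      by_contra hc
      have := Nat.ble_eq_true_of_le (not_lt.1 hc)
      rw [hb] at this
      exact Bool.false_ne_true this
    have h1 : (Fin.ofNat (m + k + k) n) =
        Fin.castAdd k (Fin.castAdd k (⟨n, hmn⟩ : Fin m)) := by
      refine Fin.ext ?_
      rw [Fin.val_ofNat, Nat.mod_eq_of_lt (by omega)]
      rfl
    have h2 : (Fin.ofNat (m + k) n) = Fin.castAdd k (⟨n, hmn⟩ : Fin m) := by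
      refine Fin.ext ?_
      rw [Fin.val_ofNat, Nat.mod_eq_of_lt hn]
      rfl
    rw [cond_false, h1, h2, Fin.append_left, Fin.append_left, Fin.append_left]

/-- Labels in range. -/
def rng (mk lj : ℕ) (L : List Nd) : Bool :=
  L.all fun t => Nat.blt t.1 lj && (Nat.blt t.2.1 mk && Nat.blt t.2.2 mk)

theorem rng_spec {mk lj : ℕ} {L : List Nd} (h : rng mk lj L = true) :
    ∀ t ∈ L, t.1 < lj ∧ t.2.1 < mk ∧ t.2.2 < mk := by
  intro t ht
  unfold rng at h
  rw [List.all_eq_true] at h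
  have h1 := h t ht
  rw [Bool.and_eq_true, Bool.and_eq_true] at h1
  exact ⟨Nat.blt_eq.mp h1.1, Nat.blt_eq.mp h1.2.1, Nat.blt_eq.mp h1.2.2⟩

theorem sum_app {α : Type} [Fintype α] (m k : ℕ) (F : (Fin (m + k) → α) → ℝ) :
    ∑ V : Fin (m + k) → α, F V = ∑ x : Fin m → α, ∑ z : Fin k → α, F (Fin.append x z) := by
  rw [← Equiv.sum_comp (Fin.appendEquiv m k) F, Fintype.sum_prod_type]
  rfl

theorem inner_eq (m k l j : ℕ) [NeZero (m + k)] [NeZero (l + j)] [NeZero (m + k + k)]
    [NeZero (l + j + j)] (A : ι → κ → κ → ℝ) (L L' : List Nd)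
    (hL : rng (m + k) (l + j) L = true) (hL' : rng (m + k) (l + j) L' = true) :
    ∑ p : (Fin m → κ) × (Fin l → ι), opn m k l j A L p * opn m k l j A L' p =
      ∑ U : Fin (l + j + j) → ι, ∑ V : Fin (m + k + k) → κ,
        pm A (ex U) (ex V) (L ++ L'.map (sh m k l j)) := by
  have h1 := rng_spec hL
  have h2 := rng_spec hL'
  have key : ∀ (x : Fin m → κ) (z z' : Fin k → κ) (y : Fin l → ι) (w w' : Fin j → ι),
      pm A (ex (Fin.append (Fin.append y w) w')) (ex (Fin.append (Fin.append x z) z'))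
        (L ++ L'.map (sh m k l j)) =
      pm A (ex (Fin.append y w)) (ex (Fin.append x z)) L *
        pm A (ex (Fin.append y w')) (ex (Fin.append x z')) L' := by
    intro x z z' y w w'
    unfold pm
    rw [List.map_append, List.prod_append, List.map_map]
    congr 1
    · congr 1
      refine List.map_congr_left fun t ht => ?_
      obtain ⟨a1, a2, a3⟩ := h1 t ht
      rw [ex_left l j j _ w' t.1 a1, ex_left m k k _ z' t.2.1 a2, ex_left m k k _ z' t.2.2 a3]
    · congr 1
      refine List.map_congr_left fun t ht => ?_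
      obtain ⟨a1, a2, a3⟩ := h2 t ht
      simp only [Function.comp_apply, sh]
      rw [ex_right l j y w w' t.1 a1, ex_right m k x z z' t.2.1 a2, ex_right m k x z z' t.2.2 a3]
  rw [sum_app (l + j) j, sum_app l j, Fintype.sum_prod_type, Finset.sum_comm]
  refine Finset.sum_congr rfl fun y _ => ?_
  simp only [sum_app (m + k) k, sum_app m k, key]
  unfold opn
  simp only
  -- left: ∑ x, (∑ w ∑ z ..) * (∑ w' ∑ z' ..)
  have e1 : ∀ x : Fin m → κ,
      (∑ w : Fin j → ι, ∑ z : Fin k → κ, pm A (ex (Fin.append y w)) (ex (Fin.append x z)) L) *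
      (∑ w : Fin j → ι, ∑ z : Fin k → κ, pm A (ex (Fin.append y w)) (ex (Fin.append x z)) L') =
      ∑ w : Fin j → ι, ∑ w' : Fin j → ι, ∑ z : Fin k → κ, ∑ z' : Fin k → κ,
        pm A (ex (Fin.append y w)) (ex (Fin.append x z)) L *
        pm A (ex (Fin.append y w')) (ex (Fin.append x z')) L' := by
    intro x
    rw [Finset.sum_mul_sum]
    refine Finset.sum_congr rfl fun w _ => Finset.sum_congr rfl fun w' _ => ?_
    rw [Finset.sum_mul_sum]
  simp only [e1]
  rw [Finset.sum_comm]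
  refine Finset.sum_congr rfl fun w _ => ?_
  rw [Finset.sum_comm]

/-- Relabelling of the free labels. -/
def rel (m l : ℕ) (g1 g2 : ℕ → ℕ) (t : Nd) : Nd :=
  (bif Nat.blt t.1 l then g2 t.1 else t.1, bif Nat.blt t.2.1 m then g1 t.2.1 else t.2.1,
    bif Nat.blt t.2.2 m then g1 t.2.2 else t.2.2)

theorem ex_rel {α : Type} (m k : ℕ) [NeZero (m + k)] (x : Fin m → α) (z : Fin k → α)
    (g : Fin m → Fin m) (g1 : ℕ → ℕ) (hg : ∀ i : Fin m, g1 i.val = (g i).val) (n : ℕ)
    (hn : n < m + k) :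
    ex (Fin.append (fun i => x (g i)) z) n =
      ex (Fin.append x z) (bif Nat.blt n m then g1 n else n) := by
  unfold ex
  cases hb : Nat.blt n m with
  | true =>
    have hmn : n < m := Nat.blt_eq.mp hb
    have h2 : (Fin.ofNat (m + k) n) = Fin.castAdd k (⟨n, hmn⟩ : Fin m) := by
      refine Fin.ext ?_
      rw [Fin.val_ofNat, Nat.mod_eq_of_lt hn]
      rfl
    have h3 : (Fin.ofNat (m + k) (g1 n)) = Fin.castAdd k (g ⟨n, hmn⟩) := by
      refine Fin.ext ?_
      have h4 := hg ⟨n, hmn⟩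
      simp only at h4
      have h5 := (g ⟨n, hmn⟩).isLt
      rw [Fin.val_ofNat, h4, Nat.mod_eq_of_lt (by omega)]
      rfl
    rw [cond_true, h2, h3, Fin.append_left, Fin.append_left]
  | false =>
    have hmn : m ≤ n := by
      by_contra hc
      have : Nat.blt n m = true := Nat.blt_eq.mpr (not_le.1 hc)
      rw [hb] at this
      exact Bool.false_ne_true this
    have h2 : (Fin.ofNat (m + k) n) = Fin.natAdd m (⟨n - m, by omega⟩ : Fin k) := by
      refine Fin.ext ?_
      rw [Fin.val_ofNat, Nat.mod_eq_of_lt hn]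
      change n = m + (n - m)
      omega
    rw [cond_false, h2, Fin.append_right, Fin.append_right]

theorem opn_rel (m k l j : ℕ) [NeZero (m + k)] [NeZero (l + j)] (A : ι → κ → κ → ℝ)
    (L : List Nd) (hL : rng (m + k) (l + j) L = true) (g : Fin m → Fin m) (h : Fin l → Fin l)
    (g1 g2 : ℕ → ℕ) (hg : ∀ i : Fin m, g1 i.val = (g i).val)
    (hh : ∀ i : Fin l, g2 i.val = (h i).val) (p : (Fin m → κ) × (Fin l → ι)) :
    opn m k l j A L (fun i => p.1 (g i), fun i => p.2 (h i)) =
      opn m k l j A (L.map (rel m l g1 g2)) p := by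
  have h1 := rng_spec hL
  unfold opn
  refine Finset.sum_congr rfl fun w _ => Finset.sum_congr rfl fun z _ => ?_
  unfold pm
  rw [List.map_map]
  congr 1
  refine List.map_congr_left fun t ht => ?_
  obtain ⟨a1, a2, a3⟩ := h1 t ht
  simp only [Function.comp_apply, rel]
  rw [ex_rel l j p.2 w h g2 hh t.1 a1, ex_rel m k p.1 z g g1 hg t.2.1 a2,
    ex_rel m k p.1 z g g1 hg t.2.2 a3]

end

end Pool.Agent.Helper58.YM
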